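import Pool.Agent.Y965.EL.Ell
import Pool.Agent.H738R2.Climb

set_option autoImplicit false

/-! Climbing orbits of the lifted map, every non-circular ellipse and every large height (adapted
from `Pool.Agent.H738R2.Climb`, with better constants). -/

namespace Pool.Agent.Y965.EL

open Set
open Pool.Agent.H738R2.Cyl (acot acot_mem acot_continuous sin_acot_pos cos_acot cot_acot acot_cot
  StrictlyConvexCurve PhaseCylinder Chord IsBilliardMap cylinderMap IsRotationalInvariantCurve
  exists_subinterval)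

variable [Ax]

/-- The height `dd` of the cylinder and the width `w` of the strips in the proof. -/
class Hd where
  h : ℝ
  w : ℝ
  hw0 : 0 < w
  hwc : w < cc
  hdw : 2 * len ≤ h * w

variable [Hd]

/-- height of the cylinder -/
noncomputable def dd : ℝ := Hd.h
/-- width of the strips -/
noncomputable def ww : ℝ := Hd.w

lemma ww_pos : 0 < ww := Hd.hw0
lemma ww_lt : ww < cc := Hd.hwc
lemma dd_ww : 2 * len ≤ dd * ww := Hd.hdw

lemma dd_pos : 0 < dd := by
  have h1 := len_pos
  have h2 := ww_pos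
  have h3 := dd_ww
  by_contra h
  push Not at h
  nlinarith

/-- the lift of the map `T` to the universal cover, in the coordinates `(s, cot α)` -/
noncomputable def Tl (p : ℝ × ℝ) : ℝ × ℝ :=
  (S (τ p.1 + 2 * del (τ p.1) p.2) + dd * un (τ p.1) p.2, un (τ p.1) p.2)

omit [Hd] in
lemma del_comp_continuous : Continuous (fun p : ℝ × ℝ => del (τ p.1) p.2) := by
  have h1 : Continuous (fun p : ℝ × ℝ => ((τ p.1, p.2) : ℝ × ℝ)) :=
    (τ_continuous.comp continuous_fst).prodMk continuous_snd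
  exact Continuous.comp (g := fun p : ℝ × ℝ => del p.1 p.2)
    (f := fun p : ℝ × ℝ => ((τ p.1, p.2) : ℝ × ℝ)) del_continuous h1

omit [Hd] in
lemma τ_fst_continuous : Continuous (fun p : ℝ × ℝ => τ p.1) :=
  τ_continuous.comp continuous_fst

omit [Hd] in
lemma un_comp_continuous : Continuous (fun p : ℝ × ℝ => un (τ p.1) p.2) :=
  continuous_snd.add (continuous_const.mul (Real.continuous_sin.comp
    (continuous_const.mul (τ_fst_continuous.add del_comp_continuous))))

lemma Tl_continuous : Continuous Tl :=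
  ((S_continuous.comp (τ_fst_continuous.add (continuous_const.mul del_comp_continuous))).add
    (continuous_const.mul un_comp_continuous)).prodMk un_comp_continuous

omit [Hd] in
lemma un_le (t u : ℝ) : un t u ≤ u + cc := by
  unfold un
  have := Real.sin_le_one (2 * (t + del t u))
  have h := cc_pos
  nlinarith

/-- the induction hypothesis: on the parameter interval between `a` and `b` the path `f` winds at
least once around the cylinder and stays in a thin strip -/
def Wind (f : ℝ → ℝ × ℝ) (a b U : ℝ) : Prop :=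
  len ≤ |(f a).1 - (f b).1| ∧ ∀ x ∈ uIcc a b, (f x).2 ∈ Icc U (U + ww)

lemma wind_step_to (f : ℝ → ℝ × ℝ) (hf : Continuous f) (a b U V : ℝ) (h : Wind f a b U)
    (hV1 : U + ww - cc ≤ V) (hV2 : V + ww ≤ U + cc) :
    ∃ a' ∈ uIcc a b, ∃ b' ∈ uIcc a b, Wind (Tl ∘ f) a' b' V := by
  have hlen := len_pos
  have hpi := Real.pi_pos
  have hw0 := ww_pos
  have hwc := ww_lt
  obtain ⟨h1, h2⟩ := h
  -- the two ends, in increasing order of the first coordinate
  obtain ⟨a₁, ha₁, b₁, hb₁, hAB⟩ : ∃ a₁ ∈ uIcc a b, ∃ b₁ ∈ uIcc a b,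
      (f a₁).1 + len ≤ (f b₁).1 := by
    rcases le_total (f a).1 (f b).1 with hle | hle
    · rw [abs_sub_comm, abs_of_nonneg (by linarith)] at h1
      exact ⟨a, left_mem_uIcc, b, right_mem_uIcc, by linarith⟩
    · rw [abs_of_nonneg (by linarith)] at h1
      exact ⟨b, right_mem_uIcc, a, left_mem_uIcc, by linarith⟩
  set A := (f a₁).1 with hA
  have hτAB : τ (A + len) = τ A + 2 * Real.pi := τ_add A
  -- the mid parameter
  set m : ℝ → ℝ := fun x => τ (f x).1 + del (τ (f x).1) (f x).2 with hm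
  have hmc : Continuous m := by
    have e2 : Continuous (fun x => del (τ (f x).1) (f x).2) := del_comp_continuous.comp hf
    exact (τ_fst_continuous.comp hf).add e2
  have hma : m a₁ ≤ τ A + Real.pi := by
    have := (del_mem (τ (f a₁).1) (f a₁).2).2
    simp only [hm]
    rw [← hA] at this ⊢
    linarith
  have hmb : τ A + 2 * Real.pi ≤ m b₁ := by
    have h3 := (del_mem (τ (f b₁).1) (f b₁).2).1
    have h4 := τ_strictMono.monotone hAB
    simp only [hm]
    rw [hτAB] at h4
    linarith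
  obtain ⟨a₃, ha₃, b₃, hb₃, hm1, hm2, hm3⟩ := exists_subinterval m hmc hma (by linarith) hmb
  have hsub : uIcc a₃ b₃ ⊆ uIcc a b :=
    (uIcc_subset_uIcc ha₃ hb₃).trans (uIcc_subset_uIcc ha₁ hb₁)
  have hmim : ∀ y ∈ Icc (τ A + Real.pi) (τ A + 2 * Real.pi), ∃ x ∈ uIcc a₃ b₃, m x = y := by
    intro y hy
    have : y ∈ uIcc (m a₃) (m b₃) := by
      rw [hm1, hm2, mem_uIcc]; left; exact hy
    obtain ⟨x, hx, hxy⟩ := intermediate_value_uIcc hmc.continuousOn this
    exact ⟨x, hx, hxy⟩
  -- an angle of the form `c + n π` in every interval of length `π`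
  have hgrid : ∀ c₀ : ℝ, ∃ n : ℤ, c₀ + n * Real.pi ∈ Icc (τ A + Real.pi) (τ A + 2 * Real.pi) := by
    intro c₀
    refine ⟨⌈(τ A + Real.pi - c₀) / Real.pi⌉, ?_, ?_⟩
    · have := Int.le_ceil ((τ A + Real.pi - c₀) / Real.pi)
      rw [div_le_iff₀ hpi] at this
      linarith
    · have := Int.ceil_lt_add_one ((τ A + Real.pi - c₀) / Real.pi)
      have h2 := mul_lt_mul_of_pos_right this hpi
      have h3 : ((τ A + Real.pi - c₀) / Real.pi + 1) * Real.pi = τ A + 2 * Real.pi - c₀ := by
        field_simp; ring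
      linarith
  obtain ⟨n, hn⟩ := hgrid (Real.pi / 4)
  obtain ⟨n', hn'⟩ := hgrid (-(Real.pi / 4))
  obtain ⟨xp, hxp, hmp⟩ := hmim _ hn
  obtain ⟨xm, hxm, hmm⟩ := hmim _ hn'
  -- second coordinate of the image
  set k : ℝ → ℝ := fun x => un (τ (f x).1) (f x).2 with hk
  have hkc : Continuous k := un_comp_continuous.comp hf
  have hkm : ∀ x, k x = (f x).2 + cc * Real.sin (2 * m x) := fun x => rfl
  have hkp : V + ww ≤ k xp := by
    rw [hkm, hmp]
    have : Real.sin (2 * (Real.pi / 4 + n * Real.pi)) = 1 := by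
      have e : 2 * (Real.pi / 4 + n * Real.pi) = Real.pi / 2 + n * (2 * Real.pi) := by ring
      rw [e, Real.sin_add_int_mul_two_pi, Real.sin_pi_div_two]
    rw [this]
    have := (h2 xp (hsub hxp)).1
    linarith
  have hkm' : k xm ≤ V := by
    rw [hkm, hmm]
    have : Real.sin (2 * (-(Real.pi / 4) + n' * Real.pi)) = -1 := by
      have e : 2 * (-(Real.pi / 4) + n' * Real.pi) = -(Real.pi / 2) + n' * (2 * Real.pi) := by ring
      rw [e, Real.sin_add_int_mul_two_pi, Real.sin_neg, Real.sin_pi_div_two]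
    rw [this]
    have := (h2 xm (hsub hxm)).2
    linarith
  obtain ⟨a₂, ha₂, b₂, hb₂, e1, e2, e3⟩ := exists_subinterval k hkc hkm' (by linarith) hkp
  have hsub2 : uIcc xm xp ⊆ uIcc a₃ b₃ := uIcc_subset_uIcc hxm hxp
  refine ⟨a₂, hsub (hsub2 ha₂), b₂, hsub (hsub2 hb₂), ?_, ?_⟩
  · -- horizontal extent
    have hS : ∀ x ∈ uIcc a₃ b₃, S (τ (f x).1 + 2 * del (τ (f x).1) (f x).2)
        ∈ Ioo (S (τ A + Real.pi)) (S (τ A + Real.pi) + len) := by
      intro x hx
      have h3 := hm3 x hx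
      have h4 := del_mem (τ (f x).1) (f x).2
      have h5 : m x = τ (f x).1 + del (τ (f x).1) (f x).2 := rfl
      rw [h5] at h3
      constructor
      · exact S_strictMono (by linarith [h3.1, h4.1])
      · rw [← S_add]
        exact S_strictMono (by linarith [h3.2, h4.2])
    have ha := hS a₂ (hsub2 ha₂)
    have hb := hS b₂ (hsub2 hb₂)
    have e1' : un (τ (f a₂).1) (f a₂).2 = V := e1
    have e2' : un (τ (f b₂).1) (f b₂).2 = V + ww := e2
    simp only [Function.comp_apply, Tl]
    rw [e1', e2', abs_sub_comm]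
    refine le_trans ?_ (le_abs_self _)
    have h6 := dd_ww
    have h7 : dd * (V + ww) = dd * V + dd * ww := by ring
    rw [h7]
    linarith [ha.1, ha.2, hb.1, hb.2]
  · intro x hx
    exact e3 x hx

lemma wind_step (f : ℝ → ℝ × ℝ) (hf : Continuous f) (a b U : ℝ) (h : Wind f a b U) :
    ∃ a' ∈ uIcc a b, ∃ b' ∈ uIcc a b, Wind (Tl ∘ f) a' b' (U + (cc - ww)) :=
  wind_step_to f hf a b U _ h (by linarith [ww_pos, ww_lt]) (by linarith)

/-- finite pieces of prescribed itineraries -/
lemma wind_fin (N : ℕ) : ∀ (f : ℝ → ℝ × ℝ) (_ : Continuous f) (a b : ℝ) (U : ℕ → ℝ)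
    (_ : ∀ n, |U (n + 1) - U n| ≤ cc - ww) (_ : Wind f a b (U 0)),
    ∃ x ∈ uIcc a b, ∀ n ≤ N, (Tl^[n] (f x)).2 ∈ Icc (U n) (U n + ww) := by
  induction N with
  | zero =>
    intro f hf a b U hU h
    refine ⟨a, left_mem_uIcc, fun n hn => ?_⟩
    obtain rfl : n = 0 := by omega
    exact h.2 a left_mem_uIcc
  | succ N ih =>
    intro f hf a b U hU h
    have h0 := abs_le.mp (hU 0)
    obtain ⟨a', ha', b', hb', h'⟩ := wind_step_to f hf a b (U 0) (U 1) h
      (by linarith [h0.1]) (by linarith [h0.2])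
    obtain ⟨x, hx, hxn⟩ := ih (Tl ∘ f) (Tl_continuous.comp hf) a' b' (fun n => U (n + 1))
      (fun n => hU (n + 1)) h'
    refine ⟨x, uIcc_subset_uIcc ha' hb' hx, fun n hn => ?_⟩
    rcases n with _ | n
    · exact h.2 x (uIcc_subset_uIcc ha' hb' hx)
    · rw [Function.iterate_succ_apply]
      exact hxn n (by omega)

/-- every slowly varying sequence of heights is followed by an orbit -/
theorem exists_itinerary (U : ℕ → ℝ) (hU : ∀ n, |U (n + 1) - U n| ≤ cc - ww) :
    ∃ p : ℝ × ℝ, ∀ n, (Tl^[n] p).2 ∈ Icc (U n) (U n + ww) := by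
  have hww := ww_pos
  set f : ℝ → ℝ × ℝ := fun x => (x, U 0) with hf
  have hfc : Continuous f := by fun_prop
  have hw : Wind f 0 len (U 0) := by
    constructor
    · simp only [hf, zero_sub, abs_neg]
      exact le_abs_self _
    · intro x _
      exact ⟨le_rfl, by simp only [hf]; linarith⟩
  set Q : ℕ → Set ℝ := fun N => {x | x ∈ uIcc 0 len ∧ ∀ n ≤ N, (Tl^[n] (f x)).2 ∈ Icc (U n) (U n + ww)}
    with hQ
  have hcl : ∀ N, IsClosed (Q N) := by
    intro N
    have : Q N = uIcc 0 len ∩ ⋂ n ∈ Iic N, {x | (Tl^[n] (f x)).2 ∈ Icc (U n) (U n + ww)} := by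
      ext x
      simp [hQ]
    rw [this]
    refine isClosed_Icc.inter (isClosed_biInter fun n _ => ?_)
    exact isClosed_Icc.preimage (continuous_snd.comp ((Tl_continuous.iterate n).comp hfc))
  have hne : (⋂ N, Q N).Nonempty := by
    refine IsCompact.nonempty_iInter_of_sequence_nonempty_isCompact_isClosed Q ?_ ?_ ?_ hcl
    · intro N x hx
      exact ⟨hx.1, fun n hn => hx.2 n (by omega)⟩
    · intro N
      obtain ⟨x, hx, hxn⟩ := wind_fin N f hfc 0 len U hU hw
      exact ⟨x, hx, hxn⟩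
    · exact isCompact_uIcc.of_isClosed_subset (hcl 0) fun x hx => hx.1
  obtain ⟨x, hx⟩ := hne
  rw [mem_iInter] at hx
  exact ⟨f x, fun n => (hx n).2 n le_rfl⟩

lemma wind_iterate (n : ℕ) : ∀ (f : ℝ → ℝ × ℝ) (_ : Continuous f) (a b U : ℝ) (_ : Wind f a b U),
    ∃ x ∈ uIcc a b, U + n * (cc - ww) ≤ (Tl^[n] (f x)).2 := by
  induction n with
  | zero =>
    intro f hf a b U h
    exact ⟨a, left_mem_uIcc, by simpa using (h.2 a left_mem_uIcc).1⟩
  | succ n ih =>
    intro f hf a b U h
    obtain ⟨a', ha', b', hb', h'⟩ := wind_step f hf a b U h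
    obtain ⟨x, hx, hxn⟩ := ih (Tl ∘ f) (Tl_continuous.comp hf) a' b' _ h'
    refine ⟨x, uIcc_subset_uIcc ha' hb' hx, ?_⟩
    rw [Function.iterate_succ_apply]
    have : U + ((n + 1 : ℕ) : ℝ) * (cc - ww) = U + (cc - ww) + n * (cc - ww) := by push_cast; ring
    rw [this]
    exact hxn

/-- there are orbits from any height to above any height -/
lemma exists_climb (U V : ℝ) : ∃ (s : ℝ) (n : ℕ), V < (Tl^[n] (s, U)).2 := by
  have hwc := ww_lt
  have hw0 := ww_pos
  obtain ⟨n, hn⟩ := exists_nat_gt ((V - U) / (cc - ww))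
  rw [div_lt_iff₀ (by linarith)] at hn
  have hw : Wind (fun x => (x, U)) 0 len U := by
    constructor
    · simp only [zero_sub, abs_neg]
      exact le_abs_self _
    · intro x _
      exact ⟨le_rfl, by linarith⟩
  obtain ⟨x, -, hx⟩ := wind_iterate n (fun x => (x, U)) (by fun_prop) 0 len U hw
  exact ⟨x, n, by linarith⟩

end Pool.Agent.Y965.EL
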