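import Pool.Agent.H738R2.Ellipse

set_option autoImplicit false

/-! The ellipse `x²/a² + y²/b² = 1`, `a > b > 0`, its arc length parametrisation and its billiard
map (adapted from `Pool.Agent.H738R2.Ellipse`, where `a = 2`, `b = 1`). -/

namespace Pool.Agent.Y965.EL

open Complex
open Pool.Agent.H738R2.Cyl (acot acot_mem acot_continuous sin_acot_pos cos_acot cot_acot acot_cot
  exp_acot exp_neg_acot StrictlyConvexCurve PhaseCylinder Chord IsBilliardMap cylinderMap
  IsRotationalInvariantCurve)

/-- The semi-axes of a non-circular ellipse. -/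
class Ax where
  a : ℝ
  b : ℝ
  hb : 0 < b
  hab : b < a

variable [Ax]

/-- the larger semi-axis -/
noncomputable def ea : ℝ := Ax.a
/-- the smaller semi-axis -/
noncomputable def eb : ℝ := Ax.b

lemma eb_pos : 0 < eb := Ax.hb
lemma eb_lt : eb < ea := Ax.hab
lemma ea_pos : 0 < ea := eb_pos.trans eb_lt
lemma K_pos : 0 < ea ^ 2 - eb ^ 2 := by nlinarith [eb_pos, eb_lt]
/-- the amplitude of the change of the cotangent -/
noncomputable def cc : ℝ := (ea ^ 2 - eb ^ 2) / (ea * eb)
lemma cc_pos : 0 < cc := div_pos K_pos (mul_pos ea_pos eb_pos)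
lemma cc_eq : ea * eb * cc = ea ^ 2 - eb ^ 2 := by
  unfold cc
  have := ea_pos.ne'
  have := eb_pos.ne'
  field_simp

/-- parametrisation of the ellipse -/
noncomputable def P (t : ℝ) : ℂ := ⟨ea * Real.cos t, eb * Real.sin t⟩
/-- its derivative -/
noncomputable def P' (t : ℝ) : ℂ := ⟨-(ea * Real.sin t), eb * Real.cos t⟩
/-- squared speed -/
noncomputable def q (t : ℝ) : ℝ := eb ^ 2 + (ea ^ 2 - eb ^ 2) * Real.sin t ^ 2
/-- speed -/
noncomputable def v (t : ℝ) : ℝ := Real.sqrt (q t)
/-- `P' · P''` -/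
noncomputable def g (t : ℝ) : ℝ := (ea ^ 2 - eb ^ 2) * Real.sin t * Real.cos t

lemma q_pos (t : ℝ) : 0 < q t := by
  unfold q
  have := eb_pos
  have := K_pos
  positivity
lemma v_pos (t : ℝ) : 0 < v t := Real.sqrt_pos.mpr (q_pos t)
lemma v_sq (t : ℝ) : v t * v t = q t := Real.mul_self_sqrt (q_pos t).le

lemma q_continuous : Continuous q := by unfold q; fun_prop
lemma g_continuous : Continuous g := by unfold g; fun_prop
lemma v_continuous : Continuous v := by unfold v; exact q_continuous.sqrt
lemma v_contDiff : ContDiff ℝ (⊤ : ℕ∞) v := by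
  unfold v
  apply ContDiff.sqrt
  · unfold q; fun_prop
  · intro x; exact (q_pos x).ne'

lemma P_eq (t : ℝ) : P t = (ea : ℂ) * (Real.cos t : ℂ) + ((eb : ℂ) * (Real.sin t : ℂ)) * I := by
  have := Complex.mk_eq_add_mul_I (ea * Real.cos t) (eb * Real.sin t)
  rw [P, this]
  push_cast
  ring

lemma P'_eq (t : ℝ) : P' t = -((ea : ℂ) * (Real.sin t : ℂ)) + ((eb : ℂ) * (Real.cos t : ℂ)) * I := by
  have := Complex.mk_eq_add_mul_I (-(ea * Real.sin t)) (eb * Real.cos t)
  rw [P', this]
  push_cast
  ring

lemma P_hasDerivAt (t : ℝ) : HasDerivAt P (P' t) t := by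
  have h1 : HasDerivAt (fun t : ℝ => ((Real.cos t : ℝ) : ℂ)) ((-Real.sin t : ℝ) : ℂ) t :=
    (Real.hasDerivAt_cos t).ofReal_comp
  have h2 : HasDerivAt (fun t : ℝ => ((Real.sin t : ℝ) : ℂ)) ((Real.cos t : ℝ) : ℂ) t :=
    (Real.hasDerivAt_sin t).ofReal_comp
  have h3 : HasDerivAt (fun t : ℝ => (ea : ℂ) * ((Real.cos t : ℝ) : ℂ)
      + ((eb : ℂ) * ((Real.sin t : ℝ) : ℂ)) * I)
      ((ea : ℂ) * ((-Real.sin t : ℝ) : ℂ) + ((eb : ℂ) * ((Real.cos t : ℝ) : ℂ)) * I) t :=
    (h1.const_mul (ea : ℂ)).add ((h2.const_mul (eb : ℂ)).mul_const I)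
  have h4 : P = fun t : ℝ => (ea : ℂ) * ((Real.cos t : ℝ) : ℂ)
      + ((eb : ℂ) * ((Real.sin t : ℝ) : ℂ)) * I := funext P_eq
  rw [h4, P'_eq]
  convert h3 using 1
  push_cast; ring

lemma P_contDiff : ContDiff ℝ (⊤ : ℕ∞) P := by
  have h4 : P = fun t : ℝ => (ea : ℂ) * ((Real.cos t : ℝ) : ℂ)
      + ((eb : ℂ) * ((Real.sin t : ℝ) : ℂ)) * I := funext P_eq
  rw [h4]
  have h1 : ContDiff ℝ (⊤ : ℕ∞) (fun t : ℝ => ((Real.cos t : ℝ) : ℂ)) :=
    Complex.ofRealCLM.contDiff.comp Real.contDiff_cos
  have h2 : ContDiff ℝ (⊤ : ℕ∞) (fun t : ℝ => ((Real.sin t : ℝ) : ℂ)) :=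
    Complex.ofRealCLM.contDiff.comp Real.contDiff_sin
  exact (contDiff_const.mul h1).add ((contDiff_const.mul h2).mul contDiff_const)

lemma P_norm (t : ℝ) : ‖P' t‖ = v t := by
  rw [Complex.norm_def, v]
  congr 1
  simp only [Complex.normSq_apply, P', q]
  have := Real.sin_sq_add_cos_sq t
  linear_combination (eb ^ 2) * this

lemma P_periodic : Function.Periodic P (2 * Real.pi) := by
  intro t; simp [P]

lemma v_periodic : Function.Periodic v (2 * Real.pi) := by
  intro t; simp [v, q]

/-- arc length -/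
noncomputable def S (t : ℝ) : ℝ := ∫ x in (0:ℝ)..t, v x

lemma S_hasDerivAt (t : ℝ) : HasDerivAt S (v t) t :=
  intervalIntegral.integral_hasDerivAt_right (v_continuous.intervalIntegrable _ _)
    v_continuous.stronglyMeasurable.stronglyMeasurableAtFilter v_continuous.continuousAt

lemma S_continuous : Continuous S :=
  continuous_iff_continuousAt.mpr fun t => (S_hasDerivAt t).continuousAt

lemma S_strictMono : StrictMono S :=
  strictMono_of_deriv_pos fun t => by rw [(S_hasDerivAt t).deriv]; exact v_pos t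

/-- the length of the ellipse -/
noncomputable def len : ℝ := S (2 * Real.pi)

lemma S_zero : S 0 = 0 := by simp [S]

lemma len_pos : 0 < len := by
  have := S_strictMono (by positivity : (0:ℝ) < 2 * Real.pi)
  rwa [S_zero] at this

lemma S_add (t : ℝ) : S (t + 2 * Real.pi) = S t + len := by
  unfold S len S
  rw [← intervalIntegral.integral_add_adjacent_intervals
    (v_continuous.intervalIntegrable 0 t) (v_continuous.intervalIntegrable t (t + 2 * Real.pi))]
  congr 1
  have := v_periodic.intervalIntegral_add_eq t 0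
  rw [this, zero_add]

lemma S_add_nat (n : ℕ) (t : ℝ) : S (t + n * (2 * Real.pi)) = S t + n * len := by
  induction n with
  | zero => simp
  | succ n ih =>
    have : t + ((n+1 : ℕ) : ℝ) * (2 * Real.pi) = (t + n * (2 * Real.pi)) + 2 * Real.pi := by
      push_cast; ring
    rw [this, S_add, ih]; push_cast; ring

lemma S_sub_nat (n : ℕ) (t : ℝ) : S (t - n * (2 * Real.pi)) = S t - n * len := by
  have := S_add_nat n (t - n * (2 * Real.pi))
  rw [sub_add_cancel] at this
  linarith

lemma S_surjective : Function.Surjective S := by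
  intro y
  have h1 := len_pos
  obtain ⟨n, hn⟩ := exists_nat_gt (|y| / len)
  rw [div_lt_iff₀ h1] at hn
  have ha : S (0 + n * (2 * Real.pi)) = n * len := by rw [S_add_nat, S_zero, zero_add]
  have hb : S (0 - n * (2 * Real.pi)) = -(n * len) := by rw [S_sub_nat, S_zero, zero_sub]
  have hy : y ∈ Set.Icc (S (0 - n * (2 * Real.pi))) (S (0 + n * (2 * Real.pi))) := by
    rw [ha, hb]
    have := abs_lt.mp hn
    exact ⟨this.1.le, this.2.le⟩
  have hle : (0 - n * (2 * Real.pi) : ℝ) ≤ 0 + n * (2 * Real.pi) := by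
    have : 0 ≤ (n:ℝ) * (2 * Real.pi) := by positivity
    linarith
  obtain ⟨x, -, hx⟩ := intermediate_value_Icc hle S_continuous.continuousOn hy
  exact ⟨x, hx⟩

/-- arc length as a homeomorphism -/
noncomputable def SH : ℝ ≃ₜ ℝ := (S_strictMono.orderIsoOfSurjective S S_surjective).toHomeomorph

lemma SH_apply (t : ℝ) : SH t = S t := rfl

/-- inverse of arc length -/
noncomputable def τ (s : ℝ) : ℝ := SH.symm s

lemma S_τ (s : ℝ) : S (τ s) = s := SH.apply_symm_apply s
lemma τ_S (t : ℝ) : τ (S t) = t := SH.symm_apply_apply t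
lemma τ_continuous : Continuous τ := SH.symm.continuous

lemma τ_strictMono : StrictMono τ := by
  intro a b hab
  by_contra hcon
  push Not at hcon
  have := S_strictMono.monotone hcon
  rw [S_τ, S_τ] at this
  linarith

lemma τ_add (s : ℝ) : τ (s + len) = τ s + 2 * Real.pi := by
  apply S_strictMono.injective
  rw [S_τ, S_add, S_τ]

lemma τ_contDiff : ContDiff ℝ (⊤ : ℕ∞) τ := by
  have hS : ContDiff ℝ (⊤ : ℕ∞) S := by
    rw [contDiff_infty_iff_deriv]
    refine ⟨fun t => (S_hasDerivAt t).differentiableAt, ?_⟩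
    have : deriv S = v := funext fun t => (S_hasDerivAt t).deriv
    rw [this]; exact v_contDiff
  exact SH.contDiff_symm_deriv (f' := v) (fun x => (v_pos x).ne') (fun x => S_hasDerivAt x) hS

lemma τ_hasDerivAt (s : ℝ) : HasDerivAt τ (v (τ s))⁻¹ s := by
  have h1 : HasDerivAt S (v (τ s)) (τ s) := S_hasDerivAt _
  exact h1.of_local_left_inverse τ_continuous.continuousAt (v_pos _).ne'
    (Filter.Eventually.of_forall S_τ)

/-- the arc length parametrisation -/
noncomputable def γ (s : ℝ) : ℂ := P (τ s)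

lemma γ_hasDerivAt (s : ℝ) : HasDerivAt γ (((v (τ s))⁻¹ : ℝ) • P' (τ s)) s :=
  HasDerivAt.scomp s (P_hasDerivAt (τ s)) (τ_hasDerivAt s)

lemma γ_deriv (s : ℝ) : deriv γ s = (((v (τ s))⁻¹ : ℝ) : ℂ) * P' (τ s) := by
  rw [(γ_hasDerivAt s).deriv, Complex.real_smul]

lemma P_inj {t t' : ℝ} (ht : t ∈ Set.Ico 0 (2 * Real.pi)) (ht' : t' ∈ Set.Ico 0 (2 * Real.pi))
    (h : P t = P t') : t = t' := by
  have hc : Real.cos t = Real.cos t' := by
    have := congrArg Complex.re h
    simp only [P] at this
    exact mul_left_cancel₀ ea_pos.ne' this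
  have hs : Real.sin t = Real.sin t' := by
    have := congrArg Complex.im h
    simp only [P] at this
    exact mul_left_cancel₀ eb_pos.ne' this
  have h1 : Real.cos (t - t') = 1 := by
    rw [Real.cos_sub, hc, hs]
    have := Real.sin_sq_add_cos_sq t'
    linear_combination this
  have h2 : t - t' = 0 := by
    refine (Real.cos_eq_one_iff_of_lt_of_lt ?_ ?_).mp h1 <;> linarith [ht.1, ht.2, ht'.1, ht'.2]
  linarith

lemma ellipse_strictlyConvex : StrictlyConvexCurve γ len where
  length_pos := len_pos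
  smooth := P_contDiff.comp τ_contDiff
  periodic := by
    intro s
    unfold γ
    rw [τ_add, P_periodic]
  unit_speed := by
    intro s
    rw [γ_deriv, norm_mul, P_norm, Complex.norm_real, Real.norm_of_nonneg (by
      have := v_pos (τ s); positivity)]
    exact inv_mul_cancel₀ (v_pos _).ne'
  simple := by
    intro s hs s' hs' he
    have h0 : τ 0 = 0 := by
      have := τ_S 0
      rwa [S_zero] at this
    have hlen : τ len = 2 * Real.pi := by
      have := τ_add 0
      rwa [zero_add, h0, zero_add] at this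
    have key : ∀ s ∈ Set.Ico 0 len, τ s ∈ Set.Ico 0 (2 * Real.pi) := by
      intro s hs
      constructor
      · rw [← h0]; exact τ_strictMono.monotone hs.1
      · rw [← hlen]; exact τ_strictMono hs.2
    exact τ_strictMono.injective (P_inj (key s hs) (key s' hs') he)
  strictly_convex := by
    intro s s' hne
    rw [γ_deriv]
    unfold γ at hne ⊢
    set t := τ s
    set t' := τ s'
    have h1 : ((starRingEnd ℂ) ((((v t)⁻¹ : ℝ) : ℂ) * P' t) * (P t' - P t)).im
        = (v t)⁻¹ * (ea * eb * (1 - Real.cos (t - t'))) := by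
      rw [map_mul, Complex.conj_ofReal, mul_assoc, Complex.im_ofReal_mul]
      congr 1
      simp only [P, P', Complex.mul_im, Complex.conj_re, Complex.conj_im, Complex.sub_re,
        Complex.sub_im]
      rw [Real.cos_sub]
      have := Real.sin_sq_add_cos_sq t
      linear_combination (ea * eb) * this
    rw [h1]
    have h2 : Real.cos (t - t') ≠ 1 := by
      intro hc
      apply hne
      have hs : Real.sin (t - t') = 0 := by
        have := Real.sin_sq_add_cos_sq (t - t')
        rw [hc] at this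
        nlinarith
      have e1 : Real.cos t = Real.cos t' := by
        have : t = (t - t') + t' := by ring
        rw [this, Real.cos_add, hc, hs]; ring
      have e2 : Real.sin t = Real.sin t' := by
        have : t = (t - t') + t' := by ring
        rw [this, Real.sin_add, hc, hs]; ring
      simp only [P, e1, e2]
    have h3 : Real.cos (t - t') < 1 := lt_of_le_of_ne (Real.cos_le_one _) h2
    have := v_pos t
    have : 0 < (v t)⁻¹ := by positivity
    exact mul_pos this (mul_pos (mul_pos ea_pos eb_pos) (by linarith))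

/-! ### The lifted map -/

/-- half of the parameter increment along the chord leaving `P t` at an angle with cotangent `u` -/
noncomputable def del (t u : ℝ) : ℝ := acot ((ea * eb * u - g t) / q t)

/-- new cotangent -/
noncomputable def un (t u : ℝ) : ℝ := u + cc * Real.sin (2 * (t + del t u))

lemma del_continuous : Continuous (fun p : ℝ × ℝ => del p.1 p.2) := by
  unfold del
  apply acot_continuous.comp
  apply Continuous.div
  · have := g_continuous; fun_prop
  · have := q_continuous; fun_prop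
  · intro p; exact (q_pos _).ne'

lemma del_mem (t u : ℝ) : del t u ∈ Set.Ioo (0:ℝ) Real.pi := acot_mem _

lemma del_eq (t u : ℝ) : q t * Real.cos (del t u) + g t * Real.sin (del t u)
    = ea * eb * u * Real.sin (del t u) := by
  unfold del
  rw [cos_acot]
  have := (q_pos t).ne'
  field_simp
  ring

lemma un_key (m δ u : ℝ)
    (h : q (m - δ) * Real.cos δ + g (m - δ) * Real.sin δ = ea * eb * u * Real.sin δ) :
    q (m + δ) * Real.cos δ - g (m + δ) * Real.sin δ
      = ea * eb * (u + cc * Real.sin (2 * m)) * Real.sin δ := by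
  have e5 : Real.sin (2 * m) = 2 * Real.sin m * Real.cos m := Real.sin_two_mul m
  simp only [q, g, Real.sin_add, Real.cos_add, Real.sin_sub, Real.cos_sub] at h ⊢
  rw [e5]
  have s1 := Real.sin_sq_add_cos_sq m
  have s2 := Real.sin_sq_add_cos_sq δ
  have hc := cc_eq
  linear_combination h + (2 * (ea ^ 2 - eb ^ 2) * Real.sin m * Real.cos m * Real.sin δ) * s2
    - (2 * Real.sin m * Real.cos m * Real.sin δ) * hc

/-- the cotangent formula at the end point -/
lemma un_eq (t u : ℝ) : q (t + 2 * del t u) * Real.cos (del t u)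
    - g (t + 2 * del t u) * Real.sin (del t u) = ea * eb * un t u * Real.sin (del t u) := by
  have h := un_key (t + del t u) (del t u) u (by
    rw [add_sub_cancel_right]; exact del_eq t u)
  have e : t + del t u + del t u = t + 2 * del t u := by ring
  rw [e] at h
  exact h

lemma P'_mid (t u : ℝ) : P' (t + del t u)
    = ((ea * eb * Real.sin (del t u) / q t : ℝ) : ℂ) * (P' t * (u + I)) := by
  have h := del_eq t u
  set δ := del t u with hδ
  have hq := (q_pos t).ne'
  have s1 := Real.sin_sq_add_cos_sq t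
  apply Complex.ext
  · simp only [P', Complex.mul_re, Complex.mul_im, Complex.ofReal_re, Complex.ofReal_im,
      Complex.add_re, Complex.add_im, Complex.I_re, Complex.I_im, Real.sin_add]
    field_simp
    simp only [q, g] at h ⊢
    linear_combination (-(ea * Real.sin t)) * h
  · simp only [P', Complex.mul_im, Complex.mul_re, Complex.ofReal_re,
      Complex.ofReal_im, Complex.add_re, Complex.add_im, Complex.I_re, Complex.I_im, Real.cos_add]
    field_simp
    simp only [q, g] at h ⊢
    linear_combination (eb * Real.cos t) * h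
      - ((ea ^ 2 - eb ^ 2) * eb * Real.sin t * Real.sin δ) * s1

lemma P'_mid' (t u : ℝ) : P' (t + del t u)
    = ((ea * eb * Real.sin (del t u) / q (t + 2 * del t u) : ℝ) : ℂ) *
      (P' (t + 2 * del t u) * (un t u - I)) := by
  have h := un_eq t u
  set δ := del t u with hδ
  have e0 : t + δ = (t + 2 * δ) - δ := by ring
  rw [e0]
  generalize hb : t + 2 * δ = b at *
  generalize un t u = w at *
  have hq := (q_pos b).ne'
  have s1 := Real.sin_sq_add_cos_sq b
  apply Complex.ext
  · simp only [P', Complex.mul_re, Complex.mul_im, Complex.ofReal_re, Complex.ofReal_im,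
      Complex.sub_re, Complex.sub_im, Complex.I_re, Complex.I_im, Real.sin_sub]
    field_simp
    simp only [q, g] at h ⊢
    linear_combination (-(ea * Real.sin b)) * h
  · simp only [P', Complex.mul_im, Complex.mul_re, Complex.ofReal_re,
      Complex.ofReal_im, Complex.sub_re, Complex.sub_im, Complex.I_re, Complex.I_im, Real.cos_sub]
    field_simp
    simp only [q, g] at h ⊢
    linear_combination (eb * Real.cos b) * h
      + ((ea ^ 2 - eb ^ 2) * eb * Real.sin b * Real.sin δ) * s1

lemma P_diff (m δ : ℝ) : P (m + δ) - P (m - δ) = ((2 * Real.sin δ : ℝ) : ℂ) * P' m := by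
  apply Complex.ext
  · simp only [P, P', Complex.mul_re, Complex.sub_re, Complex.ofReal_re, Complex.ofReal_im,
      Real.cos_add, Real.cos_sub]
    ring
  · simp only [P, P', Complex.mul_im, Complex.sub_im, Complex.ofReal_re, Complex.ofReal_im,
      Real.sin_add, Real.sin_sub]
    ring

lemma ellipse_chord (s u : ℝ) :
    Chord γ s (acot u) (S (τ s + 2 * del (τ s) u)) (acot (un (τ s) u)) := by
  set t := τ s with ht
  set δ := del t u with hδ
  have hsd : 0 < Real.sin δ := Real.sin_pos_of_mem_Ioo (del_mem t u)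
  have hea := ea_pos
  have heb := eb_pos
  have hsa := sin_acot_pos u
  have hsa₁ := sin_acot_pos (un t u)
  have hv := v_pos t
  have hv₁ := v_pos (t + 2 * δ)
  have hq : (q t) = v t * v t := (v_sq t).symm
  have hq₁ : (q (t + 2 * δ)) = v (t + 2 * δ) * v (t + 2 * δ) := (v_sq _).symm
  have hγ₁ : γ (S (t + 2 * δ)) = P (t + 2 * δ) := by unfold γ; rw [τ_S]
  have hγ : γ s = P t := rfl
  have hdγ : deriv γ s = (((v t)⁻¹ : ℝ) : ℂ) * P' t := γ_deriv s
  have hdγ₁ : deriv γ (S (t + 2 * δ)) = (((v (t + 2 * δ))⁻¹ : ℝ) : ℂ) * P' (t + 2 * δ) := by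
    rw [γ_deriv, τ_S]
  -- both unit vectors are positive multiples of `P' (t + δ)`
  have w1 : exp (acot u * I) * deriv γ s
      = ((Real.sin (acot u) * v t / (ea * eb * Real.sin δ) : ℝ) : ℂ) * P' (t + δ) := by
    rw [hdγ, exp_acot, P'_mid t u, ← hδ, hq]
    push_cast
    have h1 : (Real.sin δ : ℂ) ≠ 0 := by exact_mod_cast hsd.ne'
    have h2 : (v t : ℂ) ≠ 0 := by exact_mod_cast hv.ne'
    have h3 : (ea : ℂ) ≠ 0 := by exact_mod_cast hea.ne'
    have h4 : (eb : ℂ) ≠ 0 := by exact_mod_cast heb.ne'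
    simp only [← Complex.ofReal_sin] at *
    field_simp
  have w2 : exp (-(acot (un t u) * I)) * deriv γ (S (t + 2 * δ))
      = ((Real.sin (acot (un t u)) * v (t + 2 * δ) / (ea * eb * Real.sin δ) : ℝ) : ℂ) * P' (t + δ) := by
    rw [hdγ₁, exp_neg_acot, P'_mid' t u, ← hδ, hq₁]
    push_cast
    have h1 : (Real.sin δ : ℂ) ≠ 0 := by exact_mod_cast hsd.ne'
    have h2 : (v (t + 2 * δ) : ℂ) ≠ 0 := by exact_mod_cast hv₁.ne'
    have h3 : (ea : ℂ) ≠ 0 := by exact_mod_cast hea.ne'
    have h4 : (eb : ℂ) ≠ 0 := by exact_mod_cast heb.ne'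
    simp only [← Complex.ofReal_sin] at *
    field_simp
  have n1 : ‖exp (acot u * I) * deriv γ s‖ = 1 := by
    rw [norm_mul, ellipse_strictlyConvex.unit_speed, mul_one, Complex.norm_exp_ofReal_mul_I]
  have n2 : ‖exp (-(acot (un t u) * I)) * deriv γ (S (t + 2 * δ))‖ = 1 := by
    have : -((acot (un t u) : ℂ) * I) = ((-acot (un t u) : ℝ) : ℂ) * I := by push_cast; ring
    rw [norm_mul, ellipse_strictlyConvex.unit_speed, mul_one, this,
      Complex.norm_exp_ofReal_mul_I]
  have hcoef : Real.sin (acot u) * v t / (ea * eb * Real.sin δ)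
      = Real.sin (acot (un t u)) * v (t + 2 * δ) / (ea * eb * Real.sin δ) := by
    rw [w1, norm_mul, P_norm, Complex.norm_real, Real.norm_of_nonneg (by positivity)] at n1
    rw [w2, norm_mul, P_norm, Complex.norm_real, Real.norm_of_nonneg (by positivity)] at n2
    exact mul_right_cancel₀ (v_pos (t + δ)).ne' (n1.trans n2.symm)
  refine ⟨(2 * Real.sin δ) * ((ea * eb * Real.sin δ) / (Real.sin (acot u) * v t)), by positivity, ?_, ?_⟩
  · rw [w1, hγ₁, hγ]
    have h3 := P_diff (t + δ) δ
    have e1 : t + δ + δ = t + 2 * δ := by ring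
    have e2 : t + δ - δ = t := by ring
    rw [e1, e2] at h3
    have h4 : P (t + 2 * δ) = P t + ((2 * Real.sin δ : ℝ) : ℂ) * P' (t + δ) := by
      rw [← h3]; ring
    rw [h4]
    congr 1
    rw [← mul_assoc, ← Complex.ofReal_mul]
    congr 2
    field_simp
  · rw [w1, w2, hcoef]

/-- the curve is the ellipse -/
lemma range_γ : Set.range γ = {z : ℂ | (z.re / ea) ^ 2 + (z.im / eb) ^ 2 = 1} := by
  have ha := ea_pos.ne'
  have hb := eb_pos.ne'
  ext z
  constructor
  · rintro ⟨s, rfl⟩
    show ((P (τ s)).re / ea) ^ 2 + ((P (τ s)).im / eb) ^ 2 = 1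
    simp only [P]
    rw [mul_div_cancel_left₀ _ ha, mul_div_cancel_left₀ _ hb]
    exact Real.cos_sq_add_sin_sq _
  · intro hz
    have hz' : (z.re / ea) ^ 2 + (z.im / eb) ^ 2 = 1 := hz
    set y : ℂ := ⟨z.re / ea, z.im / eb⟩ with hy
    have hn : ‖y‖ = 1 := by
      rw [Complex.norm_def, Complex.normSq_apply, ← Real.sqrt_one]
      congr 1
      linarith [sq (z.re / ea), sq (z.im / eb)]
    have hy0 : y ≠ 0 := by
      intro h
      rw [h, norm_zero] at hn
      exact zero_ne_one hn
    refine ⟨S (arg y), ?_⟩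
    unfold γ
    rw [τ_S]
    have h1 : Real.cos (arg y) = z.re / ea := by rw [Complex.cos_arg hy0, hn, div_one]
    have h2 : Real.sin (arg y) = z.im / eb := by rw [Complex.sin_arg, hn, div_one]
    apply Complex.ext
    · simp only [P]
      rw [h1]
      field_simp
    · simp only [P]
      rw [h2]
      field_simp

end Pool.Agent.Y965.EL
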